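import Mathlib
import Pool.Agent.X262.AssocWord

set_option autoImplicit false

/-!
Words defining group laws on all free nilpotent groups: the words with property (N) are exactly
`ab` and `ba`.
-/

namespace Pool.Agent.Results.MP_c4ae4c_al.OnlyAbBa

open Pool.Agent.X262.AssocWord

/-- `op` is a group operation on the set `X`: it is associative, there is a two-sided identity,
and every element has a two-sided inverse. -/
def IsGroupOp {X : Type} (op : X → X → X) : Prop :=
  (∀ x y z, op (op x y) z = op x (op y z)) ∧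
    ∃ e, (∀ x, op e x = x ∧ op x e = x) ∧ ∀ x, ∃ y, op x y = e ∧ op y x = e

/-- Property (N): for every `n ≥ 2` and `k ≥ 1` the operation `x * y = w(x,y)` makes the set
`F_n / γ_k(F_n)` into a group. (In Mathlib the lower central series starts with index `0`.) -/
def PropertyN (w : FreeGroup (Fin 2)) : Prop :=
  ∀ n : ℕ, 2 ≤ n → ∀ k : ℕ, 1 ≤ k →
    IsGroupOp (fun x y : FreeGroup (Fin n) ⧸
      (⊤ : Subgroup (FreeGroup (Fin n))).lowerCentralSeries (k - 1) => FreeGroup.lift ![x, y] w)

theorem lift_comp {G H : Type} [Group G] [Group H] (φ : G →* H) (x y : G) (w : FreeGroup (Fin 2)) :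
    φ (FreeGroup.lift ![x, y] w) = FreeGroup.lift ![φ x, φ y] w := by
  have : φ.comp (FreeGroup.lift ![x, y]) = FreeGroup.lift ![φ x, φ y] := by
    ext i; fin_cases i <;> simp
  rw [← this]; rfl

theorem lift_int (s t : Multiplicative ℤ) (w : FreeGroup (Fin 2)) :
    Multiplicative.toAdd (FreeGroup.lift ![s, t] w) =
      Multiplicative.toAdd (esum 0 w) * Multiplicative.toAdd s +
      Multiplicative.toAdd (esum 1 w) * Multiplicative.toAdd t := by
  induction w using FreeGroup.induction_on with
  | C1 => simp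
  | of x => fin_cases x <;> simp
  | inv_of x ih => fin_cases x <;> simp
  | mul x y hx hy =>
    rw [map_mul, toAdd_mul, hx, hy, map_mul (esum (0 : Fin 2)), map_mul (esum (1 : Fin 2)),
      toAdd_mul, toAdd_mul]
    ring

theorem esums (w : FreeGroup (Fin 2)) (hw : PropertyN w) :
    Multiplicative.toAdd (esum 0 w) = 1 ∧ Multiplicative.toAdd (esum 1 w) = 1 := by
  obtain ⟨-, e, he, -⟩ := hw 2 le_rfl 2 (by norm_num)
  have hker : ∀ x ∈ (⊤ : Subgroup (FreeGroup (Fin 2))).lowerCentralSeries (2 - 1),
      (esum (0 : Fin 2)) x = 1 := by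
    intro x hx
    have h1 : (⊤ : Subgroup (FreeGroup (Fin 2))).lowerCentralSeries (2 - 1) ≤
        commutator (FreeGroup (Fin 2)) :=
      le_of_eq (by simp [commutator_def, Subgroup.lowerCentralSeries_succ])
    exact Abelianization.commutator_subset_ker (esum (0 : Fin 2)) (h1 hx)
  let χ : FreeGroup (Fin 2) ⧸ (⊤ : Subgroup (FreeGroup (Fin 2))).lowerCentralSeries (2 - 1) →*
      Multiplicative ℤ := QuotientGroup.lift _ (esum (0 : Fin 2)) hker
  have hχ : ∀ t : Multiplicative ℤ, ∃ x, χ x = t := by
    intro t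
    refine ⟨QuotientGroup.mk (FreeGroup.of 0 ^ Multiplicative.toAdd t), ?_⟩
    change esum (0 : Fin 2) (FreeGroup.of 0 ^ Multiplicative.toAdd t) = t
    rw [map_zpow, esum_of]
    simp [← ofAdd_zsmul]
  have h1 : ∀ t : ℤ, Multiplicative.toAdd (esum 0 w) * Multiplicative.toAdd (χ e) +
      Multiplicative.toAdd (esum 1 w) * t = t := by
    intro t
    obtain ⟨x, hx⟩ := hχ (Multiplicative.ofAdd t)
    have := congrArg χ (he x).1
    simp only at this
    rw [lift_comp, hx] at this
    have h2 := congrArg Multiplicative.toAdd this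
    rwa [lift_int] at h2
  have h2 : ∀ t : ℤ, Multiplicative.toAdd (esum 0 w) * t +
      Multiplicative.toAdd (esum 1 w) * Multiplicative.toAdd (χ e) = t := by
    intro t
    obtain ⟨x, hx⟩ := hχ (Multiplicative.ofAdd t)
    have := congrArg χ (he x).2
    simp only at this
    rw [lift_comp, hx] at this
    have h2 := congrArg Multiplicative.toAdd this
    rwa [lift_int] at h2
  have a0 := h1 0
  have a1 := h1 1
  have b0 := h2 0
  have b1 := h2 1
  constructor <;> linarith

theorem assoc_free (w : FreeGroup (Fin 2)) (hw : PropertyN w) :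
    FreeGroup.lift ![FreeGroup.lift ![FreeGroup.of 0, FreeGroup.of 1] w, FreeGroup.of 2] w =
      (FreeGroup.lift ![FreeGroup.of 0, FreeGroup.lift ![FreeGroup.of 1, FreeGroup.of 2] w] w :
        FreeGroup (Fin 3)) := by
  rw [← inv_mul_eq_one]
  apply Pool.Agent.Helper189.FreeRep.lcs_bot
  intro n
  obtain ⟨has, -⟩ := hw 3 (by norm_num) (n + 1) (by omega)
  rw [← QuotientGroup.eq]
  have := has (QuotientGroup.mk' _ (FreeGroup.of 0)) (QuotientGroup.mk' _ (FreeGroup.of 1))
    (QuotientGroup.mk' _ (FreeGroup.of 2))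
  simp only [← lift_comp] at this
  exact this

theorem result (w : FreeGroup (Fin 2)) :
    PropertyN w ↔ w = FreeGroup.of 0 * FreeGroup.of 1 ∨ w = FreeGroup.of 1 * FreeGroup.of 0 := by
  constructor
  · intro hw
    obtain ⟨h0, h1⟩ := esums w hw
    exact assoc_word w h0 h1 (assoc_free w hw)
  · rintro (rfl | rfl)
    · intro n _ k _
      refine ⟨fun x y z => by simp [mul_assoc], 1, fun x => by simp, fun x => ⟨x⁻¹, by simp, by simp⟩⟩
    · intro n _ k _
      refine ⟨fun x y z => by simp [mul_assoc], 1, fun x => by simp, fun x => ⟨x⁻¹, by simp, by simp⟩⟩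

end Pool.Agent.Results.MP_c4ae4c_al.OnlyAbBa
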